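import Pool.Agent.helper71.FT.Spec

/-!
# MP_07c750, row ft:FUS (helper54)
-/

set_option autoImplicit false

namespace Pool.Agent.FT

open MeasureTheory Set
open Pool.Agent.FS (tp)

theorem FUS_cnt (l u ell : ℝ) (hl : 0 < l) (hell : 0 ≤ ell) (F : Finset ℕ) (hF : ∀ t ∈ F, u ≤ (t : ℝ) * l ∧ (t : ℝ) * l ≤ u + ell) :
    (F.card : ℝ) ≤ ell / l + 1 := by
  rcases F.eq_empty_or_nonempty with h0 | hne
  · subst h0
    simp only [Finset.card_empty, Nat.cast_zero]
    positivity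
  · have hsub : F ⊆ Finset.Icc (F.min' hne) (F.max' hne) := by
      intro t ht
      exact Finset.mem_Icc.2 ⟨F.min'_le t ht, F.le_max' t ht⟩
    have h1 := Finset.card_le_card hsub
    rw [Nat.card_Icc] at h1
    have h2 := hF _ (F.min'_mem hne)
    have h3 := hF _ (F.max'_mem hne)
    have h4 : F.min' hne ≤ F.max' hne := F.min'_le _ (F.max'_mem hne)
    have h5 : (F.card : ℝ) ≤ (F.max' hne : ℝ) + 1 - (F.min' hne : ℝ) := by
      have h51 : F.card + F.min' hne ≤ F.max' hne + 1 := by omega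
      have h52 : ((F.card + F.min' hne : ℕ) : ℝ) ≤ ((F.max' hne + 1 : ℕ) : ℝ) := by exact_mod_cast h51
      push_cast at h52
      linarith
    have h6 : ((F.max' hne : ℝ) - (F.min' hne : ℝ)) * l ≤ ell := by
      have h61 := h2.1
      have h62 := h3.2
      rw [sub_mul]
      linarith
    have h7 : (F.max' hne : ℝ) - (F.min' hne : ℝ) ≤ ell / l := by
      rw [le_div_iff₀ hl]; exact h6
    linarith

theorem FUS_proof (hFIX : FIX_stmt) : FUS_stmt := by
  classical
  intro c hc0 hc1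
  obtain ⟨θ, R1, H, hθ0, hθ1, hR1, hH, hfix⟩ := hFIX (c / 4) (by positivity) (by linarith)
  obtain ⟨lam, hlam⟩ : ∃ lam : ℝ, lam = Real.log (H : ℝ) := ⟨_, rfl⟩
  have hH' : (2 : ℝ) ≤ H := by exact_mod_cast hH
  have hlam0 : 0 < lam := by rw [hlam]; exact Real.log_pos (by linarith)
  obtain ⟨rho, hrho⟩ : ∃ rho : ℝ, rho = Real.log R1 := ⟨_, rfl⟩
  have hrho0 : 0 ≤ rho := by rw [hrho]; exact Real.log_nonneg hR1
  obtain ⟨C2, hC2⟩ : ∃ C2 : ℝ, C2 = (1 + rho) / lam + 1 := ⟨_, rfl⟩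
  have hC20 : 0 < C2 := by rw [hC2]; positivity
  have hC21 : 1 / lam + 1 ≤ C2 := by
    rw [hC2]
    have : 1 / lam ≤ (1 + rho) / lam := div_le_div_of_nonneg_right (by linarith) hlam0.le
    linarith
  have hlθ : Real.log θ < 0 := Real.log_neg hθ0 hθ1
  obtain ⟨ε, hε⟩ : ∃ ε : ℝ, ε = min (1 / (8 * lam * C2)) (-Real.log θ / (8 * lam)) := ⟨_, rfl⟩
  have hε0 : 0 < ε := by
    rw [hε]
    exact lt_min (by positivity) (div_pos (by linarith) (by positivity))
  have hε1 : ε * (8 * lam * C2) ≤ 1 := by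
    rw [← le_div_iff₀ (by positivity), hε]
    exact min_le_left _ _
  have hε2 : ε * (8 * lam) ≤ -Real.log θ := by
    rw [← le_div_iff₀ (by positivity), hε]
    exact min_le_right _ _
  refine ⟨ε, hε0, ?_⟩
  intro κ0 hκ0 hκ1
  have hpi3 := Real.pi_gt_three
  have hpi4 : Real.pi < 3.15 := Real.pi_lt_d2
  have hpi0 := Real.pi_pos
  obtain ⟨L, hL⟩ : ∃ L : ℝ, L = Real.log (Real.pi / (2 * κ0)) := ⟨_, rfl⟩
  have hL1 : 1 < Real.pi / (2 * κ0) := by
    rw [lt_div_iff₀ (by positivity)]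
    linarith
  have hL0 : 0 < L := by rw [hL]; exact Real.log_pos hL1
  have heL : Real.exp L = Real.pi / (2 * κ0) := by rw [hL]; exact Real.exp_log (by linarith)
  obtain ⟨t0, ht0⟩ : ∃ t0 : ℕ, 11 / c + Real.pi / (2 * κ0) < (H : ℝ) ^ t0 :=
    pow_unbounded_of_one_lt _ (by linarith)
  obtain ⟨n0, hn0⟩ := exists_nat_ge (4 * rho + 4 * lam * (1 + (t0 : ℝ)))
  refine ⟨n0, ?_⟩
  intro n Y Z J a εc hn hεc hYm hY hZ hJZ
  obtain ⟨B, hB, hBY⟩ := hY
  obtain ⟨B', hB', hBZ⟩ := hZ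
  have hn' : 4 * rho + 4 * lam * (1 + (t0 : ℝ)) ≤ (n : ℝ) := hn0.trans (by exact_mod_cast hn)
  have hHt : ∀ t : ℕ, (H : ℝ) ^ t = Real.exp ((t : ℝ) * lam) := by
    intro t
    rw [Real.exp_nat_mul, hlam, Real.exp_log (by linarith)]
  have hR1e : R1 = Real.exp rho := by rw [hrho, Real.exp_log (by linarith)]
  have hεc0 : 0 < εc := by rw [hεc]; positivity
  obtain ⟨N, hN⟩ : ∃ N : ℕ, N = ⌊((n : ℝ) - rho) / lam⌋₊ := ⟨_, rfl⟩
  obtain ⟨G1, hG1⟩ : ∃ G1 : ℕ → Finset ℕ, G1 = fun b : ℕ => (Finset.range N).filter fun t : ℕ => ⌊(t : ℝ) * lam⌋₊ = b := ⟨_, rfl⟩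
  obtain ⟨G2, hG2⟩ : ∃ G2 : ℕ → Finset ℕ, G2 = fun b : ℕ => (Finset.range N).filter fun t : ℕ => ∃ R : ℝ, (H : ℝ) ^ t ≤ R ∧ R ≤ R1 * (H : ℝ) ^ t ∧
    (b : ℝ) ≤ n + L - Real.log R ∧ n + L - Real.log R ≤ (b : ℝ) + 1 := ⟨_, rfl⟩
  have hG1c : ∀ b : ℕ, ((G1 b).card : ℝ) ≤ C2 := by
    intro b
    refine le_trans (FUS_cnt lam b 1 hlam0 zero_le_one (G1 b) ?_) hC21
    intro t ht
    rw [hG1] at ht
    have ht2 := (Finset.mem_filter.1 ht).2
    have h0 : (0 : ℝ) ≤ (t : ℝ) * lam := by positivity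
    constructor
    · have := Nat.floor_le h0
      rw [ht2] at this
      exact this
    · have := Nat.lt_floor_add_one ((t : ℝ) * lam)
      rw [ht2] at this
      exact this.le
  have hG2c : ∀ b : ℕ, ((G2 b).card : ℝ) ≤ C2 := by
    intro b
    rw [hC2]
    refine FUS_cnt lam ((n : ℝ) + L - b - 1 - rho) (1 + rho) hlam0 (by linarith) (G2 b) ?_
    intro t ht
    rw [hG2] at ht
    obtain ⟨R, h1, h2, h3, h4⟩ := (Finset.mem_filter.1 ht).2
    rw [hHt] at h1 h2
    have hR0 : 0 < R := lt_of_lt_of_le (Real.exp_pos _) h1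
    have h5 : (t : ℝ) * lam ≤ Real.log R := by
      rw [Real.le_log_iff_exp_le hR0]; exact h1
    have h6 : Real.log R ≤ rho + (t : ℝ) * lam := by
      rw [Real.log_le_iff_le_exp hR0, Real.exp_add, ← hR1e]; exact h2
    constructor <;> linarith
  obtain ⟨E, hE⟩ : ∃ E : Finset ℕ, E = Finset.range t0 ∪ B.biUnion G1 ∪ B'.biUnion G2 := ⟨_, rfl⟩
  have hEc : (E.card : ℝ) ≤ t0 + 2 * (C2 * (ε * n)) := by
    have h1 : E.card ≤ t0 + (B.biUnion G1).card + (B'.biUnion G2).card := by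
      rw [hE]
      refine (Finset.card_union_le _ _).trans ?_
      have := Finset.card_union_le (Finset.range t0) (B.biUnion G1)
      rw [Finset.card_range] at this
      omega
    have h2 : ((B.biUnion G1).card : ℝ) ≤ C2 * (ε * n) := by
      have h21 : (B.biUnion G1).card ≤ ∑ b ∈ B, (G1 b).card := Finset.card_biUnion_le
      have h22 : ((B.biUnion G1).card : ℝ) ≤ ∑ b ∈ B, ((G1 b).card : ℝ) := by exact_mod_cast h21
      have h23 : ∑ b ∈ B, ((G1 b).card : ℝ) ≤ ∑ _b ∈ B, C2 := Finset.sum_le_sum fun b _ => hG1c b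
      rw [Finset.sum_const, nsmul_eq_mul] at h23
      have h24 : (B.card : ℝ) * C2 ≤ (ε * n) * C2 := mul_le_mul_of_nonneg_right hB hC20.le
      linarith
    have h3 : ((B'.biUnion G2).card : ℝ) ≤ C2 * (ε * n) := by
      have h21 : (B'.biUnion G2).card ≤ ∑ b ∈ B', (G2 b).card := Finset.card_biUnion_le
      have h22 : ((B'.biUnion G2).card : ℝ) ≤ ∑ b ∈ B', ((G2 b).card : ℝ) := by exact_mod_cast h21
      have h23 : ∑ b ∈ B', ((G2 b).card : ℝ) ≤ ∑ _b ∈ B', C2 := Finset.sum_le_sum fun b _ => hG2c b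
      rw [Finset.sum_const, nsmul_eq_mul] at h23
      have h24 : (B'.card : ℝ) * C2 ≤ (ε * n) * C2 := mul_le_mul_of_nonneg_right hB' hC20.le
      linarith
    have h4 : (E.card : ℝ) ≤ t0 + ((B.biUnion G1).card : ℝ) + ((B'.biUnion G2).card : ℝ) := by exact_mod_cast h1
    linarith
  obtain ⟨S, hS⟩ : ∃ S : Finset ℕ, S = Finset.range N \ E := ⟨_, rfl⟩
  have hScard : (n : ℝ) / (2 * lam) ≤ S.card := by
    have h1 : N ≤ S.card + E.card := by
      have := Finset.card_le_card_sdiff_add_card (s := Finset.range N) (t := E)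
      rw [Finset.card_range, ← hS] at this
      exact this
    have h2 : (N : ℝ) ≤ S.card + E.card := by exact_mod_cast h1
    have h3 : ((n : ℝ) - rho) / lam < (N : ℝ) + 1 := by
      rw [hN]; exact Nat.lt_floor_add_one _
    have h4 : ((n : ℝ) - rho) / lam - 1 - t0 - 2 * (C2 * (ε * n)) ≤ S.card := by linarith
    refine le_trans ?_ h4
    rw [div_le_iff₀ (by positivity)]
    have h5 : (((n : ℝ) - rho) / lam - 1 - t0 - 2 * (C2 * (ε * n))) * (2 * lam) = 2 * ((n : ℝ) - rho) - 2 * lam * (1 + t0) - (ε * (8 * lam * C2)) * n / 2 := by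
      field_simp
      ring
    rw [h5]
    have h6 : (ε * (8 * lam * C2)) * n ≤ 1 * n := mul_le_mul_of_nonneg_right hε1 (Nat.cast_nonneg n)
    linarith
  have hθS : θ ^ S.card ≤ Real.exp (-(4 * ε * n)) := by
    have h1 : θ ^ S.card = Real.exp ((S.card : ℝ) * Real.log θ) := by
      rw [Real.exp_nat_mul, Real.exp_log hθ0]
    rw [h1]
    apply Real.exp_le_exp.2
    have h2 : (S.card : ℝ) * Real.log θ ≤ (n : ℝ) / (2 * lam) * Real.log θ := mul_le_mul_of_nonpos_right hScard hlθ.le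
    refine h2.trans ?_
    have h3 : (n : ℝ) / (2 * lam) * Real.log θ = -(((n : ℝ) / (2 * lam)) * (-Real.log θ)) := by ring
    rw [h3]
    have h4 : ((n : ℝ) / (2 * lam)) * (ε * (8 * lam)) ≤ ((n : ℝ) / (2 * lam)) * (-Real.log θ) :=
      mul_le_mul_of_nonneg_left hε2 (by positivity)
    have h5 : ((n : ℝ) / (2 * lam)) * (ε * (8 * lam)) = 4 * ε * n := by
      field_simp
      ring
    linarith
  have hfacts : ∀ t ∈ S, (t : ℝ) * lam + rho + lam ≤ n ∧ t0 ≤ t ∧ ⌊(t : ℝ) * lam⌋₊ ∉ B ∧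
      ∀ b ∈ B', ∀ R : ℝ, (H : ℝ) ^ t ≤ R → R ≤ R1 * (H : ℝ) ^ t → (b : ℝ) ≤ n + L - Real.log R → n + L - Real.log R ≤ (b : ℝ) + 1 → False := by
    intro t ht
    rw [hS, Finset.mem_sdiff, Finset.mem_range] at ht
    obtain ⟨htN, htE⟩ := ht
    rw [hE, Finset.mem_union, Finset.mem_union, not_or, not_or] at htE
    obtain ⟨⟨h1, h2⟩, h3⟩ := htE
    refine ⟨?_, ?_, ?_, ?_⟩
    · have h4 : t + 1 ≤ ⌊((n : ℝ) - rho) / lam⌋₊ := by rw [← hN]; exact htN
      have h5 := (Nat.le_floor_iff' (Nat.succ_ne_zero t)).1 h4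
      rw [le_div_iff₀ hlam0] at h5
      push_cast at h5
      linarith
    · rw [Finset.mem_range, not_lt] at h1
      exact h1
    · intro hb
      apply h2
      rw [Finset.mem_biUnion]
      refine ⟨_, hb, ?_⟩
      rw [hG1]
      exact Finset.mem_filter.2 ⟨Finset.mem_range.2 htN, rfl⟩
    · intro b hb R hR1' hR2' hb1 hb2
      apply h3
      rw [Finset.mem_biUnion]
      refine ⟨b, hb, ?_⟩
      rw [hG2]
      exact Finset.mem_filter.2 ⟨Finset.mem_range.2 htN, R, hR1', hR2', hb1, hb2⟩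
  have hmain := hfix S Y J a hYm ?_ ?_
  · refine hmain.trans ?_
    exact mul_le_mul_of_nonneg_right (mul_le_mul_of_nonneg_left hθS (by norm_num)) (Finset.sum_nonneg fun j _ => by positivity)
  · intro t ht v
    obtain ⟨h1, h2, h3, _⟩ := hfacts t ht
    have h0 : (0 : ℝ) ≤ (t : ℝ) * lam := by positivity
    have hk : ⌊(t : ℝ) * lam⌋₊ < n := (Nat.floor_lt h0).2 (by linarith)
    have hr : (1 : ℝ) / ((H ^ t : ℕ) : ℝ) = Real.exp (-((t : ℝ) * lam)) := by
      push_cast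
      rw [hHt, Real.exp_neg, one_div]
    obtain ⟨x, hx, hd⟩ := hBY _ hk h3 (Real.exp (-((t : ℝ) * lam)))
      (Real.exp_le_exp.2 (by have := Nat.lt_floor_add_one ((t : ℝ) * lam); linarith))
      (Real.exp_le_exp.2 (by have := Nat.floor_le h0; linarith)) v
    refine ⟨x, ?_, ?_⟩
    · rw [hr]; exact hx
    · refine Disjoint.mono_left ?_ hd
      have h4 : c / 4 / ((H ^ t : ℕ) : ℝ) = c / 4 * Real.exp (-((t : ℝ) * lam)) := by
        rw [← hr]; ring
      rw [h4]
      have h5 : c / 4 * Real.exp (-((t : ℝ) * lam)) ≤ c * Real.exp (-((t : ℝ) * lam)) :=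
        mul_le_mul_of_nonneg_right (by linarith) (Real.exp_pos _).le
      exact Ioo_subset_Ioo (by linarith) (by linarith)
  · intro t ht R hR1' hR2' ξ
    obtain ⟨h1, h2, _, h3⟩ := hfacts t ht
    have hHt0 : (H : ℝ) ^ t0 ≤ R := (pow_le_pow_right₀ (by linarith) h2).trans hR1'
    have hR11 : 11 / c < R := by
      have : 0 < Real.pi / (2 * κ0) := by linarith
      linarith
    have hRL : Real.pi / (2 * κ0) < R := by
      have : 0 < 11 / c := by positivity
      linarith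
    have hR0 : 0 < R := by linarith
    have hlogR1 : L < Real.log R := by
      rw [Real.lt_log_iff_exp_lt hR0, heL]; exact hRL
    have hlogR2 : Real.log R ≤ rho + (t : ℝ) * lam := by
      rw [Real.log_le_iff_le_exp hR0, Real.exp_add, ← hR1e, ← hHt]; exact hR2'
    have hs0 : (0 : ℝ) ≤ n + L - Real.log R := by linarith
    have hk : ⌊(n : ℝ) + L - Real.log R⌋₊ < n := (Nat.floor_lt hs0).2 (by linarith)
    have hkB : ⌊(n : ℝ) + L - Real.log R⌋₊ ∉ B' := by
      intro hb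
      exact h3 _ hb R hR1' hR2' (Nat.floor_le hs0) (Nat.lt_floor_add_one _).le
    have hw : 0 < 2 * εc / Real.pi := by positivity
    have hr : Real.exp (-((n : ℝ) + L - Real.log R)) = R * (2 * εc / Real.pi) := by
      have : -((n : ℝ) + L - Real.log R) = -(n : ℝ) + (-L + Real.log R) := by ring
      rw [this, Real.exp_add, Real.exp_add, Real.exp_neg L, heL, Real.exp_log hR0, hεc]
      field_simp
    obtain ⟨x, hx, hd⟩ := hBZ _ hk hkB (Real.exp (-((n : ℝ) + L - Real.log R)))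
      (Real.exp_le_exp.2 (by have := Nat.lt_floor_add_one ((n : ℝ) + L - Real.log R); linarith))
      (Real.exp_le_exp.2 (by have := Nat.floor_le hs0; linarith)) (ξ * (2 * εc / Real.pi))
    rw [hr] at hx hd
    refine ⟨x / (2 * εc / Real.pi), ⟨?_, ?_⟩, ?_⟩
    · rw [le_div_iff₀ hw]; exact hx.1
    · rw [div_le_iff₀ hw]
      have := hx.2
      rw [add_mul]
      exact this
    · intro j hj
      by_contra hlt
      rw [not_le] at hlt
      obtain ⟨z, hz, hzj⟩ := hJZ j hj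
      have h4 : |(j : ℝ) * εc - x| < c / 4 * (R * (2 * εc / Real.pi)) := by
        have h41 : (j : ℝ) * εc - x = (Real.pi * j / 2 - x / (2 * εc / Real.pi)) * (2 * εc / Real.pi) := by
          field_simp
        rw [h41, abs_mul, abs_of_pos hw]
        have := mul_lt_mul_of_pos_right hlt hw
        linarith
      have h5 : 5 * εc ≤ 3 / 4 * (c * (R * (2 * εc / Real.pi))) := by
        have h51 : 11 ≤ c * R := by
          have := (div_lt_iff₀ hc0).1 hR11
          linarith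
        have h52 : 11 * (2 * εc / Real.pi) ≤ c * R * (2 * εc / Real.pi) := mul_le_mul_of_nonneg_right h51 hw.le
        have h53 : 5 * εc ≤ 3 / 4 * (11 * (2 * εc / Real.pi)) := by
          have h54 : 3 / 4 * (11 * (2 * εc / Real.pi)) = (16.5 * εc) / Real.pi := by ring
          rw [h54, le_div_iff₀ hpi0]
          have h55 : εc * Real.pi ≤ εc * 3.15 := mul_le_mul_of_nonneg_left hpi4.le hεc0.le
          linarith
        linarith
      have h6 := abs_lt.1 h4
      have h7 := abs_le.1 hzj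
      have hzin : z ∈ Ioo (x - c * (R * (2 * εc / Real.pi))) (x + c * (R * (2 * εc / Real.pi))) := by
        constructor
        · linarith [h6.1, h7.1]
        · linarith [h6.2, h7.2]
      exact (Set.disjoint_left.1 hd) hzin hz

end Pool.Agent.FT
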